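import Pool.Agent.Helper2.SV.Final

/-!
# Every fork-free graph is perfectly divisible (a positive answer to Q1 of MP_e9db21_co)

The conjecture of Sivaraman: every finite graph without an induced fork (chair) is perfectly
divisible.  In particular it is perfectly divisible or has a trisimplicial vertex, which is Q1.

The proof is by induction over the induced subgraphs of a fixed graph on a weighted statement:
for every weight function there is a perfect vertex set meeting all cliques of maximum weight.
A minimal counterexample is claw-free (homogeneous sets, co-1-joins; goals in
`Pool.Agent.Helper2.SV.GoalsF`) and a claw-free minimal counterexample does not exist (no long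
antiholes inside neighbourhoods or co-neighbourhoods, no 5-wheels, and an exchange argument for
graphs whose neighbourhoods are covered by two cliques; goals in
`Pool.Agent.Helper2.SV.GoalsC`).
-/

set_option autoImplicit false

namespace Pool.Agent.Results.MP_e9db21_co.ForkFreePerfectlyDivisible

/-- The fork (chair): the claw with centre `0` and leaves `1`, `2`, `3`, whose edge `03` is
extended by a new leaf `4` at `3`; its edges are `01`, `02`, `03`, `34`. -/
def fork : SimpleGraph (Fin 5) :=
  SimpleGraph.fromEdgeSet {s(0, 1), s(0, 2), s(0, 3), s(3, 4)}

/-- `G` has no induced subgraph isomorphic to the fork. -/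
def ForkFree {V : Type} (G : SimpleGraph V) : Prop := ¬ Nonempty (fork ↪g G)

/-- The subgraph of `G` induced by `A` is perfect: every induced subgraph of it has chromatic
number equal to its clique number. -/
def PerfectOn {V : Type} (G : SimpleGraph V) (A : Set V) : Prop :=
  ∀ X ⊆ A, (G.induce X).chromaticNumber = ((G.induce X).cliqueNum : ℕ∞)

/-- `G` is perfectly divisible: every nonempty vertex set `X` is the disjoint union of `A` and
`B`, where `A` induces a perfect graph and the clique number of the subgraph induced by `B` is
smaller than that of the subgraph induced by `X`. -/
def PerfectlyDivisible {V : Type} (G : SimpleGraph V) : Prop :=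
  ∀ X : Set V, X.Nonempty → ∃ A B : Set V, A ∪ B = X ∧ Disjoint A B ∧ PerfectOn G A ∧
    (G.induce B).cliqueNum < (G.induce X).cliqueNum

/-- Every finite fork-free graph is perfectly divisible (Sivaraman's conjecture).  So the first
alternative of Q1 always holds. -/
theorem result : ∀ (V : Type) [Finite V] (G : SimpleGraph V), ForkFree G →
    PerfectlyDivisible G :=
  Pool.Agent.Helper2.SV.forkFree_perfectlyDivisible

end Pool.Agent.Results.MP_e9db21_co.ForkFreePerfectlyDivisible
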